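import Pool.Agent.Helper5.BD.GDefs

/-!
# BoundedDegeneracy, module GB1: parallel segments
-/

noncomputable section

open Finset Helper5.CR Classical Equiv Equiv.Perm

namespace Helper5.BD

section GB1

namespace Thick

/-- cycles of an involution without fixed points -/
theorem two_nc {D : Type} [Fintype D] (α : Perm D) (hα : ∀ d, α (α d) = d)
    (hne : ∀ d, α d ≠ d) : 2 * nc α = Fintype.card D := by
  have hs : ∀ d e, α.SameCycle d e ↔ e = d ∨ e = α d := by
    intro d e
    constructor
    · intro h
      obtain ⟨n, rfl⟩ := h.exists_nat_pow_eq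
      induction n with
      | zero => exact Or.inl rfl
      | succ n ih =>
        rw [pow_succ', Perm.mul_apply]
        rcases ih ⟨n, by simp⟩ with h | h
        · rw [h]; exact Or.inr rfl
        · rw [h, hα]; exact Or.inl rfl
    · rintro (rfl | rfl)
      · exact SameCycle.refl _ _
      · exact ⟨1, by simp⟩
  have h1 : Fintype.card D = ∑ q : Quotient (SameCycle.setoid α),
      (univ.filter (fun d => (Quotient.mk _ d : Quotient (SameCycle.setoid α)) = q)).card := by
    rw [← card_univ]
    exact card_eq_sum_card_fiberwise (fun d _ => mem_univ _)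
  have h2 : ∀ q : Quotient (SameCycle.setoid α),
      (univ.filter (fun d => (Quotient.mk _ d : Quotient (SameCycle.setoid α)) = q)).card = 2 := by
    intro q
    obtain ⟨d, rfl⟩ := Quotient.exists_rep q
    have : univ.filter (fun e => (Quotient.mk _ e : Quotient (SameCycle.setoid α)) = ⟦d⟧) =
        {d, α d} := by
      ext e
      rw [mem_filter, mem_insert, mem_singleton, ← hs d e]
      constructor
      · rintro ⟨-, h⟩
        exact (Quotient.exact h : α.SameCycle e d).symm
      · intro h
        exact ⟨mem_univ _, Quotient.sound (h.symm : α.SameCycle e d)⟩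
    rw [this, card_pair (hne d).symm]
  rw [h1, sum_congr rfl fun q _ => h2 q, sum_const, card_univ, smul_eq_mul, nc,
    Nat.card_eq_fintype_card]
  ring

/-- parallel segments: the points -/
def tσ {D : Type} (σ : Perm D) (S : ℕ) : Perm (D × Fin (S + 1)) where
  toFun p := Fin.lastCases (σ p.1, 0) (fun j => (p.1, j.succ)) p.2
  invFun p := Fin.cases (σ.symm p.1, Fin.last S) (fun j => (p.1, j.castSucc)) p.2
  left_inv := by
    rintro ⟨d, i⟩
    induction i using Fin.lastCases with
    | last => simp
    | cast j => simp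
  right_inv := by
    rintro ⟨d, i⟩
    induction i using Fin.cases with
    | zero => simp
    | succ j => simp

theorem tσ_last {D : Type} (σ : Perm D) (S : ℕ) (d : D) :
    tσ σ S (d, Fin.last S) = (σ d, 0) := by
  simp [tσ]

theorem tσ_cast {D : Type} (σ : Perm D) (S : ℕ) (d : D) (j : Fin S) :
    tσ σ S (d, j.castSucc) = (d, j.succ) := by
  simp [tσ]

/-- parallel segments: the opposite darts -/
def tα {D : Type} (α : Perm D) (R : ℕ) : Perm (D × Fin R) := Equiv.prodCongr α Fin.revPerm

theorem tα_apply {D : Type} (α : Perm D) (R : ℕ) (d : D) (i : Fin R) :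
    tα α R (d, i) = (α d, Fin.rev i) := rfl

theorem tφ_zero {D : Type} (σ α : Perm D) (S : ℕ) (d : D) :
    (tσ σ S * tα α (S + 1)) (d, 0) = ((σ * α) d, 0) := by
  rw [Perm.mul_apply, tα_apply, Fin.rev_zero, tσ_last, Perm.mul_apply]

theorem tφ_succ {D : Type} (σ α : Perm D) (S : ℕ) (d : D) (j : Fin S) :
    (tσ σ S * tα α (S + 1)) (d, j.succ) = (α d, (Fin.rev j).succ) := by
  rw [Perm.mul_apply, tα_apply, Fin.rev_succ, tσ_cast]

theorem same_zero {D : Type} (σ : Perm D) (S : ℕ) (d : D) (i : Fin (S + 1)) :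
    (tσ σ S).SameCycle (d, 0) (d, i) := by
  induction i using Fin.induction with
  | zero => exact SameCycle.refl _ _
  | succ j ih => exact ih.trans ⟨1, by rw [zpow_one, tσ_cast]⟩

theorem same_step {D : Type} (σ : Perm D) (S : ℕ) (d : D) :
    (tσ σ S).SameCycle (d, 0) (σ d, 0) :=
  (same_zero σ S d (Fin.last S)).trans ⟨1, by rw [zpow_one, tσ_last]⟩

theorem same_iff {D : Type} [Fintype D] (σ : Perm D) (S : ℕ) (a b : D × Fin (S + 1)) :
    (tσ σ S).SameCycle a b ↔ σ.SameCycle a.1 b.1 := by
  constructor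
  · intro h
    refine sameCycle_of_forall ((SameCycle.setoid σ).comap Prod.fst) ?_ h
    rintro ⟨d, i⟩
    change σ.SameCycle d (tσ σ S (d, i)).1
    induction i using Fin.lastCases with
    | last => rw [tσ_last]; exact ⟨1, by simp⟩
    | cast j => rw [tσ_cast]
  · intro h
    have h1 : (tσ σ S).SameCycle (a.1, 0) (b.1, 0) :=
      sameCycle_of_forall ((SameCycle.setoid (tσ σ S)).comap fun d => (d, 0))
        (fun d => same_step σ S d) h
    exact ((same_zero σ S a.1 a.2).symm.trans h1).trans (same_zero σ S b.1 b.2)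

end Thick

open Thick in
/-- parallel segments: a planar map stays planar if every segment is replaced by `R` parallel
segments -/
theorem planar_thicken {D : Type} [Fintype D] {σ α : Perm D} (hp : Planar σ α)
    (hα : ∀ d, α (α d) = d) (hne : ∀ d, α d ≠ d) (R : ℕ) (hR : 0 < R) :
    ∃ σ' α' : Perm (D × Fin R), Planar σ' α' ∧
      (∀ a b, σ'.SameCycle a b ↔ σ.SameCycle a.1 b.1) ∧
      ∀ d i, α' (d, i) = (α d, Fin.rev i) := by
  obtain ⟨S, rfl⟩ : ∃ S, R = S + 1 := ⟨R - 1, by omega⟩
  refine ⟨tσ σ S, tα α (S + 1), ?_, same_iff σ S, fun d i => rfl⟩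
  have hinv : ∀ (T : ℕ) (p : D × Fin T), tα α T (tα α T p) = p := by
    rintro T ⟨d, i⟩
    rw [tα_apply, tα_apply, hα, Fin.rev_rev]
  have hfix : ∀ (T : ℕ) (p : D × Fin T), tα α T p ≠ p := by
    rintro T ⟨d, i⟩ h
    rw [tα_apply] at h
    exact hne d (congrArg Prod.fst h)
  have c1 : nc σ ≤ nc (tσ σ S) :=
    le_nc_of_surj (tσ σ S) (fun p => (Quotient.mk (SameCycle.setoid σ) p.1)) (fun p =>
      Quotient.sound (s := SameCycle.setoid σ) ((same_iff σ S _ _).1 ⟨-1, by simp⟩))
      (fun q => by
        obtain ⟨d, rfl⟩ := Quotient.exists_rep q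
        exact ⟨(d, 0), rfl⟩)
  have c2 := two_nc (tα α (S + 1)) (hinv _) (hfix _)
  have c3 := two_nc (tα α S) (hinv _) (hfix _)
  have c4 := two_nc α hα hne
  have c5 : nc (σ * α) + nc (tα α S) ≤ nc (tσ σ S * tα α (S + 1)) := by
    have h : Nat.card (Quotient (SameCycle.setoid (σ * α)) ⊕ Quotient (SameCycle.setoid (tα α S)))
        ≤ nc (tσ σ S * tα α (S + 1)) := by
      refine le_nc_of_surj _ (fun p => Fin.cases (Sum.inl (Quotient.mk _ p.1))
        (fun j => Sum.inr (Quotient.mk _ (p.1, j))) p.2) ?_ ?_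
      · rintro ⟨d, i⟩
        induction i using Fin.cases with
        | zero =>
          rw [tφ_zero]
          simp only [Fin.cases_zero]
          exact congrArg Sum.inl (Quotient.sound (s := SameCycle.setoid (σ * α)) ⟨-1, by simp⟩)
        | succ j =>
          rw [tφ_succ]
          simp only [Fin.cases_succ]
          refine congrArg Sum.inr (Quotient.sound (s := SameCycle.setoid (tα α S)) ?_)
          exact ⟨-1, by rw [zpow_neg_one, Perm.inv_eq_iff_eq, tα_apply]⟩
      · rintro (q | q)
        · obtain ⟨d, rfl⟩ := Quotient.exists_rep q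
          exact ⟨(d, 0), rfl⟩
        · obtain ⟨⟨d, j⟩, rfl⟩ := Quotient.exists_rep q
          exact ⟨(d, j.succ), rfl⟩
    rw [Nat.card_sum] at h
    exact h
  have c6 : ncomp (tσ σ S) (tα α (S + 1)) ≤ ncomp σ α := by
    have hle : comp σ α ≤ (comp (tσ σ S) (tα α (S + 1))).comap fun d => (d, 0) := by
      refine sup_le ?_ ?_
      · intro a b hab
        exact comp_of_sigma ((same_iff σ S _ _).2 hab)
      · intro a b hab
        refine sameCycle_of_forall ((comp (tσ σ S) (tα α (S + 1))).comap fun d => (d, 0)) ?_ hab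
        intro c
        have e1 : comp (tσ σ S) (tα α (S + 1)) (c, 0) (α c, Fin.last S) :=
          comp_of_alpha ⟨1, by rw [zpow_one, tα_apply, Fin.rev_zero]⟩
        have e2 : comp (tσ σ S) (tα α (S + 1)) (α c, Fin.last S) (α c, 0) :=
          comp_of_sigma (same_zero σ S (α c) (Fin.last S)).symm
        exact (comp (tσ σ S) (tα α (S + 1))).trans e1 e2
    refine Nat.card_le_card_of_surjective
      (Quotient.map' (s₁ := comp σ α) (s₂ := comp (tσ σ S) (tα α (S + 1))) (fun d => (d, 0))
        (fun a b h => hle h)) ?_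
    intro q
    obtain ⟨⟨d, i⟩, rfl⟩ := Quotient.exists_rep q
    refine ⟨Quotient.mk _ d, ?_⟩
    exact Quotient.sound (s := comp (tσ σ S) (tα α (S + 1)))
      (comp_of_sigma (same_zero σ S d i))
  have c7 := euler_le (tσ σ S) (tα α (S + 1))
  unfold Planar at hp ⊢
  rw [Nat.card_eq_fintype_card] at hp c7 ⊢
  rw [Fintype.card_prod, Fintype.card_fin] at c2 c3 c7 ⊢
  have c8 : Fintype.card D * (S + 1) = Fintype.card D * S + Fintype.card D := by ring
  omega

end GB1

end Helper5.BD
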