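import Pool.Agent.Helper5.BD.GDefs

/-!
# BoundedDegeneracy, module GR4: counting darts
-/

noncomputable section

open Finset Helper5.CR Classical Equiv Equiv.Perm

namespace Helper5.BD

variable {V E : Type} [Fintype E] {src tgt : E → V}

section GR4

namespace CardAt

/-- a dart of an edge at a vertex is the first one -/
theorem head_at (P : PreDrawing src tgt) {e : E} {d : P.D} {v : V} (hd : d ∈ P.route e)
    (hv : P.pt d = P.loc v) : src e = v ∧ ∃ l, P.route e = d :: l := by
  have hw := P.route_walk e
  have hin := P.route_inner e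
  cases h : P.route e with
  | nil => rw [h] at hd; simp at hd
  | cons a l =>
    rw [h] at hd hw hin
    rcases List.mem_cons.1 hd with rfl | hd
    · exact ⟨P.loc_inj (hw.1.symm.trans hv), l, rfl⟩
    · exact absurd hv (hin d hd v)

/-- a dart of an edge leading to a vertex is the last one -/
theorem last_at (P : PreDrawing src tgt) {e : E} {a : P.D} {v : V} (ha : a ∈ P.route e)
    (hv : P.pt (P.α a) = P.loc v) : tgt e = v ∧ ∃ l, P.route e = l ++ [a] := by
  have hw := P.route_walk e
  have hin := P.route_inner e
  obtain ⟨l₁, l₂, h⟩ := List.append_of_mem ha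
  rw [h] at hw hin
  rw [isWalk_append] at hw
  obtain ⟨z, -, hw⟩ := hw
  cases l₂ with
  | nil => exact ⟨P.loc_inj ((hw.2 : P.pt (P.α a) = _).symm.trans hv), l₁, h⟩
  | cons b l₃ =>
    exfalso
    refine hin b ?_ v ((hw.2.1 : P.pt b = _).trans hv)
    cases l₁ with
    | nil => simp
    | cons c l => simp

end CardAt

open CardAt in
/-- at most as many darts as edges at a vertex -/
theorem card_at_vertex (P : PreDrawing src tgt) (hne : ∀ e, src e ≠ tgt e)
    (hU : ∀ d, P.Used d) (v : V) :
    (univ.filter (fun d => P.pt d = P.loc v)).card ≤ mdeg src tgt v := by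
  unfold mdeg
  refine card_le_card_of_injOn (fun d => (hU d).choose) ?_ ?_
  · intro d hd
    simp only [coe_filter, Set.mem_ofPred_eq, mem_univ, true_and] at hd ⊢
    rcases (hU d).choose_spec with h | h
    · exact Or.inl (head_at P h hd).1
    · exact Or.inr (last_at P h (by rw [P.α_invol]; exact hd)).1
  · intro d hd d' hd' he
    simp only [coe_filter, Set.mem_ofPred_eq, mem_univ, true_and] at hd hd' he
    have h1 := (hU d).choose_spec
    have h2 := (hU d').choose_spec
    rw [← he] at h2
    generalize (hU d).choose = e at h1 h2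
    rcases h1 with h1 | h1 <;> rcases h2 with h2 | h2
    · obtain ⟨-, l, h3⟩ := head_at P h1 hd
      obtain ⟨-, l', h4⟩ := head_at P h2 hd'
      rw [h3] at h4
      exact (List.cons.inj h4).1
    · exact absurd ((head_at P h1 hd).1.trans
        (last_at P h2 (by rw [P.α_invol]; exact hd')).1.symm) (hne e)
    · exact absurd ((head_at P h2 hd').1.trans
        (last_at P h1 (by rw [P.α_invol]; exact hd)).1.symm) (hne e)
    · obtain ⟨-, l, h3⟩ := last_at P h1 (by rw [P.α_invol]; exact hd)
      obtain ⟨-, l', h4⟩ := last_at P h2 (by rw [P.α_invol]; exact hd')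
      rw [h3] at h4
      have h5 := (List.append_inj' h4 rfl).2
      exact P.α.injective (List.cons.inj h5).1

/-- an edge uses at most twice as many darts as segments -/
theorem sum_sg (P : PreDrawing src tgt) (e : E) :
    ∑ d, sg P e d ≤ 2 * ((ipts P e).length + 1) := by
  have h1 : ∑ d, sg P e d = (univ.filter (fun d => d ∈ P.route e ∨ P.α d ∈ P.route e)).card := by
    unfold sg
    rw [card_filter]
  have h2 : univ.filter (fun d => d ∈ P.route e ∨ P.α d ∈ P.route e) ⊆
      (P.route e).toFinset ∪ ((P.route e).map P.α).toFinset := by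
    intro d hd
    rw [mem_filter] at hd
    rw [mem_union, List.mem_toFinset, List.mem_toFinset, List.mem_map]
    rcases hd.2 with h | h
    · exact Or.inl h
    · exact Or.inr ⟨P.α d, h, P.α_invol d⟩
  have h3 : (P.route e).length ≤ (ipts P e).length + 1 := by
    unfold ipts
    rw [List.length_map, List.length_tail]
    omega
  have h4 := (card_le_card h2).trans (card_union_le _ _)
  have h5 := List.toFinset_card_le (P.route e)
  have h6 := List.toFinset_card_le ((P.route e).map P.α)
  rw [List.length_map] at h6
  rw [h1]
  omega

end GR4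

end Helper5.BD
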