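import Pool.Agent.Helper5.BD.Defs

/-!
# BoundedDegeneracy, module C7: the number of crossings of type T
-/

noncomputable section

open Finset Helper5.CR Classical

namespace Helper5.BD

variable {V E X : Type} [Fintype V] [Fintype E] [Fintype X] {C : CSys V E X} {d : ℕ}

/-- crossings of type `T` have a cross pair in `A2` or an edge in `A1` -/
theorem card_T (O : Ori C d) (p : ℕ) :
    Ori.cnt (fun x => O.T x) ≤ ∑ f ∈ O.A2 p, O.cj f + ∑ e ∈ O.A1 p, C.k e := by
  have hsub : (univ.filter (fun x => O.T x)) ⊆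
      ((O.A2 p).biUnion fun f => univ.filter (fun x => O.jn x f)) ∪
        ((O.A1 p).biUnion fun e => univ.filter (fun x => C.e₁ x = e ∨ C.e₂ x = e)) := by
    intro x hx
    rw [mem_filter] at hx
    rw [mem_union, mem_biUnion, mem_biUnion]
    have key : ∀ g h : E, (g = C.e₁ x ∨ g = C.e₂ x) → (∀ u v, u = O.hi g → v = O.hi h → O.cp x u v) →
        O.arc (O.hi g) (O.hi h) → O.arc (O.lo g) (O.hi h) →
        (∃ a ∈ O.A2 p, x ∈ univ.filter (fun x => O.jn x a)) ∨
          ∃ a ∈ O.A1 p, x ∈ univ.filter (fun x => C.e₁ x = a ∨ C.e₂ x = a) := by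
      intro g h hg hcp h1 h2
      obtain ⟨f, hf1, hf2⟩ := h1
      have hm : O.lo g ∈ O.cm f := by
        unfold Ori.cm Ori.com
        rw [mem_filter]
        exact ⟨mem_univ _, ⟨g, rfl, hf1.symm⟩, by rw [hf2]; exact h2⟩
      by_cases hp : p < (O.cm f).card
      · refine Or.inl ⟨f, ?_, ?_⟩
        · unfold Ori.A2
          rw [mem_filter]
          exact ⟨mem_univ _, hp⟩
        · rw [mem_filter]
          exact ⟨mem_univ _, hcp _ _ hf1 hf2⟩
      · refine Or.inr ⟨g, ?_, ?_⟩
        · unfold Ori.A1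
          rw [mem_filter]
          exact ⟨mem_univ _, f, hf1, hm, not_lt.1 hp⟩
        · rw [mem_filter]
          exact ⟨mem_univ _, hg.imp Eq.symm Eq.symm⟩
    rcases hx.2 with ⟨h1, h2⟩ | ⟨h1, h2⟩
    · exact key _ _ (Or.inl rfl) (fun u v hu hv => Or.inl ⟨Or.inr hu, Or.inr hv⟩) h1 h2
    · exact key _ _ (Or.inr rfl) (fun u v hu hv => Or.inr ⟨Or.inr hv, Or.inr hu⟩) h1 h2
  unfold Ori.cnt
  refine (card_le_card hsub).trans ((card_union_le _ _).trans (add_le_add ?_ ?_))
  · exact card_biUnion_le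
  · refine card_biUnion_le.trans (sum_le_sum fun e _ => le_of_eq ?_)
    unfold CSys.k
    congr

end Helper5.BD
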